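import Pool.Agent.H77.Q.Defs
import Pool.Agent.H17.P3.Defs

set_option autoImplicit false

/-!
Words of a rooted code in matrix form (MP_a46c6f_co, full Q1): `ω` is the word with a letter everywhere,
`M` the symmetric matrix with zero row at the root.
-/

namespace Pool.Agent.H28.Q

open Pool.Agent.H98.Code Pool.Agent.H77.Q Pool.Agent.H17.P3

/-! ### letters -/

theorem l_ext (a b o : K) (ho : o.1 = 1) (h1 : a.1 = b.1) (h2 : kf a o = kf b o) : a = b := by
  revert a b o; unfold kf; decide

theorem l_zero (a o : K) (ho : o.1 = 1) (h1 : a.1 = 0) (h2 : kf a o = 0) : a = 0 := by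
  revert a o; unfold kf; decide

theorem l_z (a o : K) (ho : o.1 = 1) (h1 : a.1 = 0) (h2 : kf a o = 1) : a = z := by
  revert a o; unfold kf z; decide

theorem kf_zo (o : K) (ho : o.1 = 1) : kf z o = 1 := by
  revert o; unfold kf z; decide

theorem l_fst_of (a o : K) (ho : o.1 = 1) (h : a ≠ 0) (h2 : kf a o = 0) : a.1 = 1 := by
  revert a o; unfold kf; decide

theorem z2 (a : ZMod 2) : a = 0 ∨ a = 1 := by
  revert a; decide

variable {V : Type} [Fintype V] [DecidableEq V]

/-- the indicator -/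
def dl (t v : V) : ZMod 2 := if v = t then 1 else 0

theorem dl_self (t : V) : dl t t = 1 := if_pos rfl

theorem dl_ne {t v : V} (h : v ≠ t) : dl t v = 0 := if_neg h

theorem sum_dl (f : V → ZMod 2) (t : V) : ∑ v, f v * dl t v = f t := by
  unfold dl
  simp

theorem sum_dl1 (t : V) : ∑ v, dl t v = 1 := by
  unfold dl
  simp

/-- the matrix form of a rooted code -/
structure Rep (B : Submodule (ZMod 2) (V → K)) (e : V) (M : V → V → ZMod 2) (ω : V → K) :
    Prop where
  iso : ∀ u ∈ B, ∀ v ∈ B, form u v = 0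
  mem : ω ∈ B
  one : ∀ v, (ω v).1 = 1
  sym : ∀ x y, M x y = M y x
  zero : ∀ x, M e x = 0
  rc : ∀ k ∈ B, (k e).1 = 0 → ∀ w, (k w).1 = ∑ v, M w v * kf (k v) (ω v)
  ex : ∀ T : V → ZMod 2, ∑ v, T v = 0 → ∃ k ∈ B, (k e).1 = 0 ∧ ∀ v, kf (k v) (ω v) = T v

variable {B : Submodule (ZMod 2) (V → K)} {e : V} {M : V → V → ZMod 2} {ω : V → K}

theorem Rep.par (h : Rep B e M ω) {k : V → K} (hk : k ∈ B) : ∑ v, kf (k v) (ω v) = 0 :=
  h.iso k hk ω h.mem

theorem Rep.zero' (h : Rep B e M ω) (x : V) : M x e = 0 := by rw [h.sym, h.zero]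

/-- the kernel is zero -/
theorem Rep.ker (h : Rep B e M ω) {k : V → K} (hk : k ∈ B) (he : (k e).1 = 0)
    (ht : ∀ v, kf (k v) (ω v) = 0) : k = 0 := by
  funext v
  refine l_zero _ (ω v) (h.one v) ?_ (ht v)
  rw [h.rc k hk he v]
  exact Finset.sum_eq_zero fun x _ => by rw [ht x, mul_zero]

/-- the word with two noncanonical places -/
structure W2 (B : Submodule (ZMod 2) (V → K)) (M : V → V → ZMod 2) (ω : V → K) (a b : V)
    (u : V → K) : Prop where
  mem : u ∈ B
  t : ∀ v, kf (u v) (ω v) = dl a v + dl b v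
  f : ∀ w, (u w).1 = M w a + M w b

theorem Rep.w2 (h : Rep B e M ω) (a b : V) : ∃ u, W2 B M ω a b u := by
  obtain ⟨k, hk, hke, ht⟩ := h.ex (fun v => dl a v + dl b v) (by
    rw [Finset.sum_add_distrib, sum_dl1, sum_dl1]; decide)
  refine ⟨k, hk, ht, fun w => ?_⟩
  rw [h.rc k hk hke w]
  simp only [ht, mul_add, Finset.sum_add_distrib, sum_dl]

theorem kf_add_l (a b c : K) : kf (a + b) c = kf a c + kf b c := kf_add_left a b c

/-- a word of `B` whose letters relative to `ω` are known has known first coordinates -/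
theorem Rep.fst3 (h : Rep B e M ω) {k : V → K} (hk : k ∈ B) (he : (k e).1 = 0) {α β : ZMod 2}
    {a b g : V} (ht : ∀ v, kf (k v) (ω v) = α * dl a v + β * dl b v + dl g v) (w : V) :
    (k w).1 = α * M w a + β * M w b + M w g := by
  rw [h.rc k hk he w]
  have : ∀ v, M w v * kf (k v) (ω v) = α * (M w v * dl a v) + β * (M w v * dl b v)
      + M w v * dl g v := by
    intro v; rw [ht v]; ring
  simp only [this, Finset.sum_add_distrib, ← Finset.mul_sum, sum_dl]

theorem Rep.par3 (h : Rep B e M ω) {k : V → K} (hk : k ∈ B) {α β : ZMod 2}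
    {a b g : V} (ht : ∀ v, kf (k v) (ω v) = α * dl a v + β * dl b v + dl g v) :
    α + β = 1 := by
  have h1 := h.par hk
  simp only [ht, Finset.sum_add_distrib, ← Finset.mul_sum, sum_dl1, mul_one] at h1
  revert h1; generalize α = x; generalize β = y; revert x y; decide

theorem Rep.fst5 (h : Rep B e M ω) {k : V → K} (hk : k ∈ B) (he : (k e).1 = 0)
    {α β γ κ : ZMod 2} {a b c d g : V}
    (ht : ∀ v, kf (k v) (ω v) = α * dl a v + β * dl b v + γ * dl c v + κ * dl d v + dl g v)
    (w : V) : (k w).1 = α * M w a + β * M w b + γ * M w c + κ * M w d + M w g := by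
  rw [h.rc k hk he w]
  have : ∀ v, M w v * kf (k v) (ω v) = α * (M w v * dl a v) + β * (M w v * dl b v)
      + γ * (M w v * dl c v) + κ * (M w v * dl d v) + M w v * dl g v := by
    intro v; rw [ht v]; ring
  simp only [this, Finset.sum_add_distrib, ← Finset.mul_sum, sum_dl]

theorem Rep.par5 (h : Rep B e M ω) {k : V → K} (hk : k ∈ B) {α β γ κ : ZMod 2}
    {a b c d g : V}
    (ht : ∀ v, kf (k v) (ω v) = α * dl a v + β * dl b v + γ * dl c v + κ * dl d v + dl g v) :
    α + β + γ + κ = 1 := by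
  have h1 := h.par hk
  simp only [ht, Finset.sum_add_distrib, ← Finset.mul_sum, sum_dl1, mul_one] at h1
  revert h1; generalize α = x; generalize β = y; generalize γ = s; generalize κ = t
  revert x y s t; decide

/-- closed pairs -/
structure CP (M : V → V → ZMod 2) (a b : V) : Prop where
  aa : M a a = M b b
  ab : M a b ≠ M a a

theorem CP.ne {a b : V} (h : CP M a b) : a ≠ b := by
  rintro rfl
  exact h.ab rfl

theorem CP.nea (hR : Rep B e M ω) {a b : V} (h : CP M a b) : a ≠ e := by
  rintro rfl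
  exact h.ab (by rw [hR.zero, hR.zero])

theorem CP.neb (hR : Rep B e M ω) {a b : V} (h : CP M a b) : b ≠ e := by
  rintro rfl
  exact h.ab (by rw [h.aa, hR.zero, hR.zero'])

theorem ne_add {x y : ZMod 2} (h : x ≠ y) : x = y + 1 := by
  revert x y; decide

theorem CP.ab' {a b : V} (h : CP M a b) : M a b = M a a + 1 := ne_add h.ab

theorem add_zero2 {x y : ZMod 2} (h : x + y = 0) : x = y := by
  revert x y; decide

theorem self2 (x : ZMod 2) : x + x = 0 := by
  revert x; decide

variable {a b : V} {u : V → K}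

theorem W2.e0 (hR : Rep B e M ω) (hu : W2 B M ω a b u) (ha : a ≠ e) (hb : b ≠ e) : u e = 0 := by
  refine l_zero _ (ω e) (hR.one e) ?_ ?_
  · rw [hu.f, hR.zero, hR.zero, add_zero]
  · rw [hu.t, dl_ne ha.symm, dl_ne hb.symm, add_zero]

theorem W2.fe (hR : Rep B e M ω) (hu : W2 B M ω a b u) : (u e).1 = 0 := by
  rw [hu.f, hR.zero, hR.zero, add_zero]

theorem W2.fa (hR : Rep B e M ω) (hu : W2 B M ω a b u) (h : CP M a b) : (u a).1 = 1 := by
  rw [hu.f, h.ab', ← add_assoc, self2, zero_add]

theorem W2.fb (hR : Rep B e M ω) (hu : W2 B M ω a b u) (h : CP M a b) : (u b).1 = 1 := by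
  rw [hu.f, hR.sym b a, h.ab', h.aa, add_comm, ← add_assoc, self2, zero_add]

theorem W2.ta (hu : W2 B M ω a b u) (h : CP M a b) : kf (u a) (ω a) = 1 := by
  rw [hu.t, dl_self, dl_ne h.ne, add_zero]

theorem W2.tb (hu : W2 B M ω a b u) (h : CP M a b) : kf (u b) (ω b) = 1 := by
  rw [hu.t, dl_self, dl_ne h.ne.symm, zero_add]

theorem W2.t0 (hu : W2 B M ω a b u) {v : V} (h1 : v ≠ a) (h2 : v ≠ b) : kf (u v) (ω v) = 0 := by
  rw [hu.t, dl_ne h1, dl_ne h2, add_zero]

theorem W2.zfree (hR : Rep B e M ω) (hu : W2 B M ω a b u) (h : CP M a b) : ZFree u := by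
  intro v hv
  by_cases h1 : v = a
  · rw [h1] at hv
    have := hu.fa hR h
    rw [hv] at this
    exact absurd this (by decide)
  by_cases h2 : v = b
  · rw [h2] at hv
    have := hu.fb hR h
    rw [hv] at this
    exact absurd this (by decide)
  have := hu.t0 h1 h2
  rw [hv, kf_zo _ (hR.one v)] at this
  exact absurd this (by decide)

theorem W2.ne0 (hR : Rep B e M ω) (hu : W2 B M ω a b u) (h : CP M a b) : u ≠ 0 := by
  intro h0
  have := hu.fa hR h
  rw [h0] at this
  exact absurd this (zero_ne_one (α := ZMod 2))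

theorem W2.irr (hR : Rep B e M ω) (hu : W2 B M ω a b u) (h : CP M a b) : Irr B u := by
  intro d hd hle
  have hde : (d e).1 = 0 := by
    rcases hle e with h1 | h1
    · rw [h1]; rfl
    · rw [h1]; exact hu.fe hR
  have ht : ∀ v, v ≠ a → v ≠ b → kf (d v) (ω v) = 0 := by
    intro v h1 h2
    rcases hle v with h3 | h3
    · rw [h3, kf_zero_left]
    · rw [h3]; exact hu.t0 h1 h2
  have hsum : kf (d a) (ω a) + kf (d b) (ω b) = 0 := by
    have h1 := hR.par hd
    rw [← Finset.sum_subset (Finset.subset_univ {a, b}) (fun v _ hv => by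
      simp only [Finset.mem_insert, Finset.mem_singleton, not_or] at hv
      exact ht v hv.1 hv.2), Finset.sum_pair h.ne] at h1
    exact h1
  rcases hle a with h1 | h1
  · left
    have e1 : kf (d a) (ω a) = 0 := by rw [h1, kf_zero_left]
    rw [e1, zero_add] at hsum
    refine hR.ker hd hde ?_
    intro v
    by_cases h3 : v = a
    · rw [h3, e1]
    by_cases h4 : v = b
    · rw [h4, hsum]
    exact ht v h3 h4
  · right
    have e1 : kf (d a) (ω a) = 1 := by rw [h1]; exact hu.ta h
    rw [e1] at hsum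
    have e2 : kf (d b) (ω b) = 1 := by
      revert hsum; generalize kf (d b) (ω b) = x; revert x; decide
    have h5 : d + u = 0 := by
      refine hR.ker (B.add_mem hd hu.mem) ?_ ?_
      · show (d e).1 + (u e).1 = 0
        rw [hde, hu.fe hR, add_zero]
      · intro v
        show kf (d v + u v) (ω v) = 0
        rw [kf_add_left]
        by_cases h3 : v = a
        · rw [h3, e1, hu.ta h]; decide
        by_cases h4 : v = b
        · rw [h4, e2, hu.tb h]; decide
        rw [ht v h3 h4, hu.t0 h3 h4, add_zero]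
    funext v
    have h6 := congrFun h5 v
    have h7 : d v + u v = 0 := h6
    revert h7
    generalize d v = x
    generalize u v = y
    revert x y
    decide

end Pool.Agent.H28.Q
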