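import Pool.Agent.H28.Q.Basic

set_option autoImplicit false

/-!
Splitting words and sides: midpoints and bad points (MP_a46c6f_co, full Q1).
-/

namespace Pool.Agent.H28.Q

open Pool.Agent.H98.Code Pool.Agent.H77.Q Pool.Agent.H17.P3

variable {V : Type} [Fintype V] [DecidableEq V]
variable {B : Submodule (ZMod 2) (V → K)} {e : V} {M : V → V → ZMod 2} {ω : V → K}
variable {a b c d g : V} {u : V → K}

theorem mid_aux (hR : Rep B e M ω) (hu : W2 B M ω a b u) (h : CP M a b) {c₁ c₂ : V → K}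
    (h1 : c₁ ∈ B) (hs : c₁ + c₂ = u) (hg1 : c₁ g = z) (hg2 : c₂ g = z)
    (hd : ∀ v, v ≠ g → c₁ v = 0 ∨ c₂ v = 0) (hta : kf (c₁ a) (ω a) = 1) :
    M g g ≠ M a a ∧ M g a = M g g ∧ M g b = M g g ∧ ∀ x, M a x = M b x → M g x = M a x := by
  have hsv : ∀ v, c₁ v + c₂ v = u v := fun v => congrFun hs v
  have hug : u g = 0 := by rw [← hsv g, hg1, hg2]; decide
  have hga : g ≠ a := by
    rintro rfl
    have := hu.fa hR h
    rw [hug] at this
    exact absurd this (zero_ne_one (α := ZMod 2))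
  have hgb : g ≠ b := by
    rintro rfl
    have := hu.fb hR h
    rw [hug] at this
    exact absurd this (zero_ne_one (α := ZMod 2))
  have hle : ∀ v, v ≠ g → c₁ v = 0 ∨ c₁ v = u v := by
    intro v hv
    rcases hd v hv with h3 | h3
    · exact Or.inl h3
    · right
      rw [← hsv v, h3, add_zero]
  have ht : ∀ v, kf (c₁ v) (ω v) = 1 * dl a v + kf (c₁ b) (ω b) * dl b v + dl g v := by
    intro v
    by_cases h3 : v = g
    · rw [h3, hg1, kf_zo _ (hR.one g), dl_ne hga, dl_ne hgb, dl_self]; ring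
    by_cases h4 : v = a
    · rw [h4, hta, dl_self, dl_ne h.ne, dl_ne hga.symm]; ring
    by_cases h5 : v = b
    · rw [h5, dl_self, dl_ne h.ne.symm, dl_ne hgb.symm]; ring
    rw [dl_ne h3, dl_ne h4, dl_ne h5]
    have : kf (c₁ v) (ω v) = 0 := by
      rcases hle v h3 with h6 | h6
      · rw [h6, kf_zero_left]
      · rw [h6, hu.t0 h4 h5]
    rw [this]; ring
  have hb0 : kf (c₁ b) (ω b) = 0 := by
    have := hR.par3 h1 ht
    revert this; generalize kf (c₁ b) (ω b) = x; revert x; decide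
  have he : (c₁ e).1 = 0 := by
    by_cases h3 : e = g
    · rw [h3, hg1]; rfl
    · rcases hle e h3 with h6 | h6
      · rw [h6]; rfl
      · rw [h6, hu.fe hR]
  have hf : ∀ w, (c₁ w).1 = M w a + M w g := by
    intro w
    rw [hR.fst3 h1 he ht w, hb0]; ring
  have hf2 : ∀ w, (c₂ w).1 = M w b + M w g := by
    intro w
    have h3 : (c₁ w).1 + (c₂ w).1 = (u w).1 := congrArg Prod.fst (hsv w)
    rw [hf, hu.f] at h3
    revert h3
    generalize M w a = p; generalize M w b = q; generalize M w g = r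
    generalize (c₂ w).1 = s
    revert p q r s; decide
  have e1 : M g a + M g g = 0 := by rw [← hf, hg1]; rfl
  have e2 : M g b + M g g = 0 := by rw [← hf2, hg2]; rfl
  have e3 : M a b + M a g = 0 := by
    rw [← hf2]
    rcases hd a hga.symm with h3 | h3
    · rw [h3, kf_zero_left] at hta
      exact absurd hta (by decide)
    · rw [h3]; rfl
  refine ⟨?_, add_zero2 e1, add_zero2 e2, ?_⟩
  · rw [← add_zero2 e1, hR.sym g a, ← add_zero2 e3]
    exact h.ab
  · intro x hx
    by_cases h3 : x = g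
    · rw [h3, ← add_zero2 e1, hR.sym g a]
    · rw [hR.sym g x, hR.sym a x]
      rcases hd x h3 with h4 | h4
      · have : (c₁ x).1 = 0 := by rw [h4]; rfl
        rw [hf] at this
        exact (add_zero2 this).symm
      · have : (c₂ x).1 = 0 := by rw [h4]; rfl
        rw [hf2] at this
        rw [← add_zero2 this, hR.sym x a, hR.sym x b, hx]

/-- a splitting point of a closed pair is a midpoint -/
theorem mid_of_split (hR : Rep B e M ω) (hu : W2 B M ω a b u) (h : CP M a b)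
    (hs : Splits B u g) :
    M g g ≠ M a a ∧ M g a = M g g ∧ M g b = M g g ∧ ∀ x, M a x = M b x → M g x = M a x := by
  obtain ⟨c₁, h1, c₂, h2, hs, hg1, hg2, hd⟩ := hs
  have hsv : ∀ v, c₁ v + c₂ v = u v := fun v => congrFun hs v
  rcases z2 (kf (c₁ a) (ω a)) with h3 | h3
  · refine mid_aux hR hu h h2 (by rw [add_comm]; exact hs) hg2 hg1
      (fun v hv => (hd v hv).symm) ?_
    have h4 := hu.ta h
    rw [← hsv a, kf_add_left, h3, zero_add] at h4
    exact h4
  · exact mid_aux hR hu h h1 hs hg1 hg2 hd h3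

/-- an induced path with the loops `0110` -/
structure P40 (M : V → V → ZMod 2) (a b c d : V) : Prop where
  p4 : IsP4 M a b c d
  aa : M a a = 0
  bb : M b b = 1
  cc : M c c = 1
  dd : M d d = 0

theorem one_ne {x y : ZMod 2} (h1 : x = 0) (h2 : y = 1) : x ≠ y := by
  rw [h1, h2]; decide

theorem P40.nab (h : P40 M a b c d) : a ≠ b := by
  rintro rfl; exact one_ne h.aa h.bb rfl
theorem P40.nac (h : P40 M a b c d) : a ≠ c := by
  rintro rfl; exact one_ne h.aa h.cc rfl
theorem P40.nad (hR : Rep B e M ω) (h : P40 M a b c d) : a ≠ d := by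
  rintro rfl; exact one_ne h.p4.ac h.p4.cd (hR.sym _ _)
theorem P40.nbc (h : P40 M a b c d) : b ≠ c := by
  rintro rfl; exact one_ne h.p4.bd h.p4.cd rfl
theorem P40.nbd (h : P40 M a b c d) : b ≠ d := by
  rintro rfl; exact one_ne h.dd h.bb rfl
theorem P40.ncd (h : P40 M a b c d) : c ≠ d := by
  rintro rfl; exact one_ne h.dd h.cc rfl
theorem P40.nea (hR : Rep B e M ω) (h : P40 M a b c d) : a ≠ e := by
  rintro rfl; exact one_ne (hR.zero b) h.p4.ab rfl
theorem P40.neb (hR : Rep B e M ω) (h : P40 M a b c d) : b ≠ e := by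
  rintro rfl; exact one_ne (hR.zero b) h.bb rfl
theorem P40.nec (hR : Rep B e M ω) (h : P40 M a b c d) : c ≠ e := by
  rintro rfl; exact one_ne (hR.zero c) h.cc rfl
theorem P40.ned (hR : Rep B e M ω) (h : P40 M a b c d) : d ≠ e := by
  rintro rfl; exact one_ne (hR.zero' c) h.p4.cd rfl

/-- the word with four noncanonical places -/
structure W4 (B : Submodule (ZMod 2) (V → K)) (M : V → V → ZMod 2) (ω : V → K) (a b c d : V)
    (u : V → K) : Prop where
  mem : u ∈ B
  t : ∀ v, kf (u v) (ω v) = dl a v + dl b v + dl c v + dl d v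
  f : ∀ w, (u w).1 = M w a + M w b + M w c + M w d

theorem Rep.w4 (h : Rep B e M ω) (a b c d : V) : ∃ u, W4 B M ω a b c d u := by
  obtain ⟨u, hu⟩ := h.w2 a b
  obtain ⟨v, hv⟩ := h.w2 c d
  refine ⟨u + v, B.add_mem hu.mem hv.mem, fun x => ?_, fun w => ?_⟩
  · show kf (u x + v x) (ω x) = _
    rw [kf_add_left, hu.t, hv.t]; ring
  · show (u w).1 + (v w).1 = _
    rw [hu.f, hv.f]; ring

section
variable (hR : Rep B e M ω) (hu : W4 B M ω a b c d u) (h : P40 M a b c d)
include hR hu h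

theorem W4.fa : (u a).1 = 1 := by
  rw [hu.f, h.aa, h.p4.ab, h.p4.ac, h.p4.ad]; decide
theorem W4.fb : (u b).1 = 1 := by
  rw [hu.f, hR.sym b a, h.p4.ab, h.bb, h.p4.bc, h.p4.bd]; decide
theorem W4.fc : (u c).1 = 1 := by
  rw [hu.f, hR.sym c a, hR.sym c b, h.p4.ac, h.p4.bc, h.cc, h.p4.cd]; decide
theorem W4.fd : (u d).1 = 1 := by
  rw [hu.f, hR.sym d a, hR.sym d b, hR.sym d c, h.p4.ad, h.p4.bd, h.dd, h.p4.cd]; decide
theorem W4.ta : kf (u a) (ω a) = 1 := by
  rw [hu.t, dl_self, dl_ne h.nab, dl_ne h.nac, dl_ne (h.nad hR)]; decide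
theorem W4.tb : kf (u b) (ω b) = 1 := by
  rw [hu.t, dl_self, dl_ne h.nab.symm, dl_ne h.nbc, dl_ne h.nbd]; decide
theorem W4.tc : kf (u c) (ω c) = 1 := by
  rw [hu.t, dl_self, dl_ne h.nac.symm, dl_ne h.nbc.symm, dl_ne h.ncd]; decide
theorem W4.td : kf (u d) (ω d) = 1 := by
  rw [hu.t, dl_self, dl_ne (h.nad hR).symm, dl_ne h.nbd.symm, dl_ne h.ncd.symm]; decide
omit hR h in
theorem W4.t0 {v : V} (h1 : v ≠ a) (h2 : v ≠ b) (h3 : v ≠ c) (h4 : v ≠ d) :
    kf (u v) (ω v) = 0 := by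
  rw [hu.t, dl_ne h1, dl_ne h2, dl_ne h3, dl_ne h4]; decide
omit h in
theorem W4.fe : (u e).1 = 0 := by
  rw [hu.f, hR.zero, hR.zero, hR.zero, hR.zero]; decide
theorem W4.e0 : u e = 0 := by
  refine l_zero _ (ω e) (hR.one e) (hu.fe hR) ?_
  exact hu.t0 (h.nea hR).symm (h.neb hR).symm (h.nec hR).symm (h.ned hR).symm
theorem W4.zfree : ZFree u := by
  intro v hv
  have key : ∀ x, x = v → (u x).1 = 1 → False := by
    intro x hx h1
    rw [hx, hv] at h1
    exact absurd h1 (by decide)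
  by_cases h1 : v = a
  · exact key a h1.symm (hu.fa hR h)
  by_cases h2 : v = b
  · exact key b h2.symm (hu.fb hR h)
  by_cases h3 : v = c
  · exact key c h3.symm (hu.fc hR h)
  by_cases h4 : v = d
  · exact key d h4.symm (hu.fd hR h)
  have := hu.t0 h1 h2 h3 h4
  rw [hv, kf_zo _ (hR.one v)] at this
  exact absurd this (by decide)
theorem W4.ne0 : u ≠ 0 := by
  intro h0
  have := hu.fa hR h
  rw [h0] at this
  exact absurd this (zero_ne_one (α := ZMod 2))
end

/-- a word with one more noncanonical place than `a b c d` -/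
theorem bad_of_word (hR : Rep B e M ω) (h : P40 M a b c d) {k : V → K} (hk : k ∈ B)
    (hke : (k e).1 = 0) {α β γ κ : ZMod 2}
    (ht : ∀ v, kf (k v) (ω v) = α * dl a v + β * dl b v + γ * dl c v + κ * dl d v + dl g v)
    (ha : (k a).1 = α) (hb : (k b).1 = β) (hc : (k c).1 = γ) (hd : (k d).1 = κ) :
    Bad M a b c d g ∧ ∀ y, M a y = M b y → M a y = M c y → M a y = M d y → (k y).1 = 0 →
      M g y = M a y := by
  have hp := hR.par5 hk ht
  have hf := hR.fst5 hk hke ht
  rw [hf, h.aa, h.p4.ab, h.p4.ac, h.p4.ad, hR.sym a g] at ha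
  rw [hf, hR.sym b a, h.p4.ab, h.bb, h.p4.bc, h.p4.bd, hR.sym b g] at hb
  rw [hf, hR.sym c a, hR.sym c b, h.p4.ac, h.p4.bc, h.cc, h.p4.cd, hR.sym c g] at hc
  rw [hf, hR.sym d a, hR.sym d b, hR.sym d c, h.p4.ad, h.p4.bd, h.dd, h.p4.cd,
    hR.sym d g] at hd
  constructor
  · unfold Bad
    clear hf ht hk hke
    revert ha hb hc hd hp
    generalize M g a = x1; generalize M g b = x2; generalize M g c = x3; generalize M g d = x4
    revert x1 x2 x3 x4 α β γ κ
    decide
  · intro y h1 h2 h3 h4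
    rw [hf, hR.sym y a, hR.sym y b, hR.sym y c, hR.sym y d, ← h1, ← h2, ← h3, hR.sym y g] at h4
    clear ha hb hc hd hf ht hk hke
    revert h4 hp
    generalize M a y = x1; generalize M g y = x2
    revert x1 x2 α β γ κ
    decide

/-- values of a word which is below the `0110` word on its support -/
theorem le_val {x y o : K} (h1 : x = 0 ∨ x = y) (hf : y.1 = 1) (ht : kf y o = 1) :
    x.1 = kf x o := by
  rcases h1 with h1 | h1
  · rw [h1, kf_zero_left]; rfl
  · rw [h1, hf, ht]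

/-- a splitting point of a `0110` path is a bad point which agrees on the constant columns -/
theorem bad_of_split (hR : Rep B e M ω) (hu : W4 B M ω a b c d u) (h : P40 M a b c d)
    (hs : Splits B u g) :
    Bad M a b c d g ∧ ∀ y, M a y = M b y → M a y = M c y → M a y = M d y → M g y = M a y := by
  obtain ⟨c₁, h1, c₂, h2, hs, hg1, hg2, hd⟩ := hs
  have hsv : ∀ v, c₁ v + c₂ v = u v := fun v => congrFun hs v
  have hug : u g = 0 := by rw [← hsv g, hg1, hg2]; decide
  have hne : ∀ x, (u x).1 = 1 → g ≠ x := by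
    rintro x hx rfl
    rw [hug] at hx
    exact absurd hx (zero_ne_one (α := ZMod 2))
  have hga := hne a (hu.fa hR h)
  have hgb := hne b (hu.fb hR h)
  have hgc := hne c (hu.fc hR h)
  have hgd := hne d (hu.fd hR h)
  have hle : ∀ v, v ≠ g → c₁ v = 0 ∨ c₁ v = u v := by
    intro v hv
    rcases hd v hv with h3 | h3
    · exact Or.inl h3
    · right
      rw [← hsv v, h3, add_zero]
  have ht : ∀ v, kf (c₁ v) (ω v) = kf (c₁ a) (ω a) * dl a v + kf (c₁ b) (ω b) * dl b v +
      kf (c₁ c) (ω c) * dl c v + kf (c₁ d) (ω d) * dl d v + dl g v := by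
    intro v
    by_cases h3 : v = g
    · rw [h3, hg1, kf_zo _ (hR.one g), dl_ne hga, dl_ne hgb, dl_ne hgc, dl_ne hgd, dl_self]
      ring
    by_cases h4 : v = a
    · rw [h4, dl_self, dl_ne h.nab, dl_ne h.nac, dl_ne (h.nad hR), dl_ne hga.symm]; ring
    by_cases h5 : v = b
    · rw [h5, dl_self, dl_ne h.nab.symm, dl_ne h.nbc, dl_ne h.nbd, dl_ne hgb.symm]; ring
    by_cases h6 : v = c
    · rw [h6, dl_self, dl_ne h.nac.symm, dl_ne h.nbc.symm, dl_ne h.ncd, dl_ne hgc.symm]; ring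
    by_cases h7 : v = d
    · rw [h7, dl_self, dl_ne (h.nad hR).symm, dl_ne h.nbd.symm, dl_ne h.ncd.symm,
        dl_ne hgd.symm]; ring
    rw [dl_ne h3, dl_ne h4, dl_ne h5, dl_ne h6, dl_ne h7]
    have : kf (c₁ v) (ω v) = 0 := by
      rcases hle v h3 with h8 | h8
      · rw [h8, kf_zero_left]
      · rw [h8, hu.t0 h4 h5 h6 h7]
    rw [this]; ring
  have he : (c₁ e).1 = 0 := by
    by_cases h3 : e = g
    · rw [h3, hg1]; rfl
    · rcases hle e h3 with h6 | h6
      · rw [h6]; rfl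
      · rw [h6, hu.fe hR]
  obtain ⟨hb, hag⟩ := bad_of_word hR h h1 he ht
    (le_val (hle a hga.symm) (hu.fa hR h) (hu.ta hR h))
    (le_val (hle b hgb.symm) (hu.fb hR h) (hu.tb hR h))
    (le_val (hle c hgc.symm) (hu.fc hR h) (hu.tc hR h))
    (le_val (hle d hgd.symm) (hu.fd hR h) (hu.td hR h))
  refine ⟨hb, fun y e1 e2 e3 => hag y e1 e2 e3 ?_⟩
  by_cases h3 : y = g
  · rw [h3, hg1]; rfl
  · rcases hle y h3 with h6 | h6
    · rw [h6]; rfl
    · rw [h6, hu.f, hR.sym y a, hR.sym y b, hR.sym y c, hR.sym y d, ← e1, ← e2, ← e3]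
      generalize M a y = x; revert x; decide

end Pool.Agent.H28.Q
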