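import Pool.Agent.H28.Q.Side
import Pool.Agent.H81.P4.Main

set_option autoImplicit false

/-!
Closed pairs split (MP_a46c6f_co, full Q1).
-/

namespace Pool.Agent.H28.Q

open Pool.Agent.H98.Code Pool.Agent.H77.Q Pool.Agent.H17.P3

variable {V : Type} [Fintype V] [DecidableEq V]
variable {B : Submodule (ZMod 2) (V → K)} {e : V} {M : V → V → ZMod 2} {ω : V → K}
variable {S : (V → K) → Finset V → Prop}
variable {a b c d g : V} {u : V → K} {Y : Finset V}

theorem sum4 {f : V → ZMod 2} {α β γ κ : ZMod 2} (m : V → ZMod 2)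
    (ht : ∀ v, f v = α * dl a v + β * dl b v + γ * dl c v + κ * dl d v) :
    ∑ v, m v * f v = α * m a + β * m b + γ * m c + κ * m d := by
  have : ∀ v, m v * f v = α * (m v * dl a v) + β * (m v * dl b v)
      + γ * (m v * dl c v) + κ * (m v * dl d v) := by
    intro v; rw [ht v]; ring
  simp only [this, Finset.sum_add_distrib, ← Finset.mul_sum, sum_dl]

theorem W4.irr (hR : Rep B e M ω) (hu : W4 B M ω a b c d u) (h : P40 M a b c d) : Irr B u := by
  intro k hk hle
  have hke : (k e).1 = 0 := by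
    rcases hle e with h1 | h1
    · rw [h1]; rfl
    · rw [h1]; exact hu.fe hR
  have ht : ∀ v, kf (k v) (ω v) = kf (k a) (ω a) * dl a v + kf (k b) (ω b) * dl b v +
      kf (k c) (ω c) * dl c v + kf (k d) (ω d) * dl d v := by
    intro v
    by_cases h1 : v = a
    · rw [h1, dl_self, dl_ne h.nab, dl_ne h.nac, dl_ne (h.nad hR)]; ring
    by_cases h2 : v = b
    · rw [h2, dl_self, dl_ne h.nab.symm, dl_ne h.nbc, dl_ne h.nbd]; ring
    by_cases h3 : v = c
    · rw [h3, dl_self, dl_ne h.nac.symm, dl_ne h.nbc.symm, dl_ne h.ncd]; ring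
    by_cases h4 : v = d
    · rw [h4, dl_self, dl_ne (h.nad hR).symm, dl_ne h.nbd.symm, dl_ne h.ncd.symm]; ring
    rw [dl_ne h1, dl_ne h2, dl_ne h3, dl_ne h4]
    have : kf (k v) (ω v) = 0 := by
      rcases hle v with h8 | h8
      · rw [h8, kf_zero_left]
      · rw [h8, hu.t0 h1 h2 h3 h4]
    rw [this]; ring
  have hf : ∀ w, (k w).1 = kf (k a) (ω a) * M w a + kf (k b) (ω b) * M w b +
      kf (k c) (ω c) * M w c + kf (k d) (ω d) * M w d := by
    intro w
    rw [hR.rc k hk hke w]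
    exact sum4 (fun v => M w v) ht
  have ea := le_val (hle a) (hu.fa hR h) (hu.ta hR h)
  have eb := le_val (hle b) (hu.fb hR h) (hu.tb hR h)
  have ec := le_val (hle c) (hu.fc hR h) (hu.tc hR h)
  have ed := le_val (hle d) (hu.fd hR h) (hu.td hR h)
  rw [hf, h.aa, h.p4.ab, h.p4.ac, h.p4.ad] at ea
  rw [hf, hR.sym b a, h.p4.ab, h.bb, h.p4.bc, h.p4.bd] at eb
  rw [hf, hR.sym c a, hR.sym c b, h.p4.ac, h.p4.bc, h.cc, h.p4.cd] at ec
  rw [hf, hR.sym d a, hR.sym d b, hR.sym d c, h.p4.ad, h.p4.bd, h.dd, h.p4.cd] at ed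
  have hall : kf (k b) (ω b) = kf (k a) (ω a) ∧ kf (k c) (ω c) = kf (k a) (ω a) ∧
      kf (k d) (ω d) = kf (k a) (ω a) := by
    revert ea eb ec ed
    generalize kf (k a) (ω a) = x1; generalize kf (k b) (ω b) = x2
    generalize kf (k c) (ω c) = x3; generalize kf (k d) (ω d) = x4
    clear * -
    revert x1 x2 x3 x4; decide
  obtain ⟨e1, e2, e3⟩ := hall
  rcases z2 (kf (k a) (ω a)) with h0 | h0
  · left
    refine hR.ker hk hke fun v => ?_
    rw [ht v, e1, e2, e3, h0]; ring
  · right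
    have h5 : k + u = 0 := by
      refine hR.ker (B.add_mem hk hu.mem) ?_ fun v => ?_
      · show (k e).1 + (u e).1 = 0
        rw [hke, hu.fe hR, add_zero]
      · show kf (k v + u v) (ω v) = 0
        rw [kf_add_left, ht v, hu.t, e1, e2, e3, h0]
        generalize dl a v = x1; generalize dl b v = x2
        generalize dl c v = x3; generalize dl d v = x4
        clear * -
        revert x1 x2 x3 x4; decide
    funext v
    have h7 : k v + u v = 0 := congrFun h5 v
    revert h7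
    generalize k v = x
    generalize u v = y
    clear * -
    revert x y
    decide

/-- a bad point for a `0110` path whose word splits or has a nonempty side -/
theorem p4_point (hR : Rep B e M ω) (hS : RSides B e S) (hu : W4 B M ω a b c d u)
    (h : P40 M a b c d) (hs : (∃ g, Splits B u g) ∨ ∃ Y, Y.Nonempty ∧ S u Y) :
    ∃ g, (Bad M a b c d g ∧ ∀ y, M a y = M b y → M a y = M c y → M a y = M d y →
      M g y = M a y) ∧ (Splits B u g ∨ ∃ Y, S u Y ∧ g ∈ Y) := by
  rcases hs with ⟨g, hg⟩ | ⟨Y, ⟨y, hy⟩, hY⟩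
  · exact ⟨g, bad_of_split hR hu h hg, Or.inl hg⟩
  · obtain ⟨h1, h2⟩ := p4_side hR hS hu h hY hy
    refine ⟨y, ⟨h1, fun p e1 e2 e3 => h2 p e1 e2 e3 ?_⟩, Or.inr ⟨Y, hY, hy⟩⟩
    intro hp
    obtain ⟨h3, -⟩ := p4_side hR hS hu h hY hp
    refine h3.1 ?_
    rw [hR.sym p a, hR.sym p d, e3]

theorem pair_splits (hR : Rep B e M ω) (hS : RSides B e S) : ∀ (n : ℕ) (a b : V) (u : V → K)
    (Y : Finset V), W2 B M ω a b u → CP M a b → S u Y → Y.Nonempty → Y.card < n →
    ∃ g, Splits B u g := by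
  classical
  intro n
  induction n with
  | zero =>
    intro a b u Y _ _ _ _ h
    exact absurd h (Nat.not_lt_zero _)
  | succ n ih =>
    intro a b u Y hu h hY hne hcard
    by_contra hns
    have hz := hS.zero u Y hY
    have hr := hS.root u Y hY
    have hue : u e = 0 := hu.e0 hR (h.nea hR) (h.neb hR)
    have hzu := hu.zfree hR h
    have side := fun y (hy : y ∈ Y) => pair_side hR hS hu h hY hy
    have naY : a ∉ Y := fun h1 => fst_ne (hu.fa hR h) (hz a h1) rfl
    have nbY : b ∉ Y := fun h1 => fst_ne (hu.fb hR h) (hz b h1) rfl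
    -- words inside the side
    have inside : ∀ k ∈ B, ZFree k → k ≠ 0 → Irr B k → (∀ v, u v ≠ 0 → k v = 0 ∨ k v = u v) →
        (∀ v, u v = 0 → v ∉ Y → k v = 0) → (∃ t ∈ Y, k t ≠ 0) →
        (∃ g, Splits B k g) ∨ ∃ Y', Y' ⊆ Y ∧ Y'.Nonempty ∧ S k Y' ∧ Y'.card < n := by
      intro k hk h1 h2 h3 h4 h5 ⟨t, ht, h6⟩
      rcases hS.mono u Y hY (hu.irr hR h) k hk h1 h2 h3 h4 h5 with h7 | ⟨Y', h7, h8, h9⟩
      · exact Or.inl h7
      · refine Or.inr ⟨Y', h7, h8, h9, ?_⟩
        have h10 : Y' ⊂ Y := by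
          refine ⟨h7, fun h11 => h6 (hS.zero k Y' h9 t (h11 ht))⟩
        have := Finset.card_lt_card h10
        omega
    -- splitting points of words inside the side
    have inY : ∀ k g, (∀ v, u v ≠ 0 → k v = 0 ∨ k v = u v) →
        (∀ v, u v = 0 → v ∉ Y → k v = 0) → Splits B k g → g ∈ Y := by
      intro k g h4 h5 ⟨c₁, hc₁, c₂, hc₂, hs, hg1, hg2, hd⟩
      have hsv : ∀ v, c₁ v + c₂ v = k v := fun v => congrFun hs v
      have hle : ∀ v, v ≠ g → c₁ v = 0 ∨ c₁ v = k v := by
        intro v hv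
        rcases hd v hv with h6 | h6
        · exact Or.inl h6
        · right; rw [← hsv v, h6, add_zero]
      have hg0 : (u g).1 = 0 := by
        refine g_zero hR hc₁ hu.mem hg1 fun v hv => ?_
        by_cases h6 : u v = 0
        · exact Or.inr (Or.inl h6)
        rcases hle v hv with h7 | h7
        · exact Or.inl h7
        · rcases h4 v h6 with h8 | h8
          · left; rw [h7, h8]
          · right; right; rw [h7, h8]
      have hug : u g = 0 := by
        rcases k_cases (u g) with h6 | h6 | h6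
        · exact h6
        · exact absurd h6 (hzu g)
        · rw [hg0] at h6; exact absurd h6 (by decide)
      by_contra hgY
      refine hns ⟨g, kpart hS hu.mem hY hc₁ hg1 hug hgY ?_ ?_⟩
      · intro v hv
        have hvg : v ≠ g := by rintro rfl; exact hv hug
        rcases hle v hvg with h7 | h7
        · exact Or.inl h7
        · rw [h7]; exact h4 v hv
      · intro v h6 h7 h8
        rcases hle v h8 with h9 | h9
        · exact h9
        · rw [h9]; exact h5 v h6 h7
    -- the two-letter words of the side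
    have two : ∀ x x' w, x ∈ Y → x' ∈ Y → W2 B M ω x x' w →
        (∀ v, u v ≠ 0 → w v = 0 ∨ w v = u v) ∧ (∀ v, u v = 0 → v ∉ Y → w v = 0) := by
      intro x x' w hx hx' hw
      have nY : ∀ v, v ∉ Y → kf (w v) (ω v) = 0 := by
        intro v hv
        exact hw.t0 (by rintro rfl; exact hv hx) (by rintro rfl; exact hv hx')
      constructor
      · intro v hv
        have hvY : v ∉ Y := fun h1 => hv (hz v h1)
        by_cases h1 : v = a
        · left
          refine l_zero _ _ (hR.one v) ?_ (nY v hvY)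
          rw [hw.f, h1, hR.sym a x, hR.sym a x', (side x hx).1, (side x' hx').1, self2]
        by_cases h2 : v = b
        · left
          refine l_zero _ _ (hR.one v) ?_ (nY v hvY)
          rw [hw.f, h2, hR.sym b x, hR.sym b x', (side x hx).2.1, (side x' hx').2.1, self2]
        have h3 := hu.t0 h1 h2
        have h4 := l_fst_of _ _ (hR.one v) hv h3
        rcases z2 (w v).1 with h5 | h5
        · exact Or.inl (l_zero _ _ (hR.one v) h5 (nY v hvY))
        · exact Or.inr (l_ext _ _ _ (hR.one v) (by rw [h5, h4]) (by rw [nY v hvY, h3]))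
      · intro v hv hvY
        refine l_zero _ _ (hR.one v) ?_ (nY v hvY)
        rw [hw.f, hR.sym v x, hR.sym v x', (side x hx).2.2 v hv hvY,
          (side x' hx').2.2 v hv hvY, self2]
    -- the matrix on the side
    set MY : Y → Y → ZMod 2 := fun x y => M x.1 y.1 with hMY
    have hsym : ∀ x y, MY x y = MY y x := fun x y => hR.sym _ _
    have hpairs : Pairs MY := by
      intro x x' h1 h2
      have hcp : CP M x.1 x'.1 := ⟨h1, h2⟩
      obtain ⟨w, hw⟩ := hR.w2 x.1 x'.1
      obtain ⟨t1, t2⟩ := two _ _ w x.2 x'.2 hw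
      have hwx : w x.1 ≠ 0 := fst_ne (hw.fa hR hcp) rfl
      obtain ⟨g, hg⟩ : ∃ g, Splits B w g := by
        rcases inside w hw.mem (hw.zfree hR hcp) (hw.ne0 hR hcp) (hw.irr hR hcp) t1 t2
          ⟨x.1, x.2, hwx⟩ with h3 | ⟨Y', h3, h4, h5, h6⟩
        · exact h3
        · exact ih _ _ w Y' hw hcp h5 h4 h6
      have hgY := inY w g t1 t2 hg
      obtain ⟨m1, m2, m3, m4⟩ := mid_of_split hR hw hcp hg
      exact ⟨⟨g, hgY⟩, m1, m2, m3, fun y hy => m4 y.1 hy⟩
    have hp4 : P4Split MY := by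
      intro p q r s hp haa hbb hcc hdd
      have hP : P40 M p.1 q.1 r.1 s.1 :=
        ⟨⟨hp.ab, hp.bc, hp.cd, hp.ac, hp.ad, hp.bd⟩, haa, hbb, hcc, hdd⟩
      obtain ⟨w1, hw1⟩ := hR.w2 p.1 q.1
      obtain ⟨w2, hw2⟩ := hR.w2 r.1 s.1
      have hw : W4 B M ω p.1 q.1 r.1 s.1 (w1 + w2) := by
        refine ⟨B.add_mem hw1.mem hw2.mem, fun x => ?_, fun w => ?_⟩
        · show kf (w1 x + w2 x) (ω x) = _
          rw [kf_add_left, hw1.t, hw2.t]; ring
        · show (w1 w).1 + (w2 w).1 = _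
          rw [hw1.f, hw2.f]; ring
      obtain ⟨t1, t2⟩ := two _ _ w1 p.2 q.2 hw1
      obtain ⟨t3, t4⟩ := two _ _ w2 r.2 s.2 hw2
      have t5 : ∀ v, u v ≠ 0 → (w1 + w2) v = 0 ∨ (w1 + w2) v = u v := by
        intro v hv
        show w1 v + w2 v = 0 ∨ w1 v + w2 v = u v
        rcases t1 v hv with h1 | h1
        · rw [h1, zero_add]; exact t3 v hv
        · rcases t3 v hv with h3 | h3
          · right; rw [h1, h3, add_zero]
          · left; rw [h1, h3, k_add_self]
      have t6 : ∀ v, u v = 0 → v ∉ Y → (w1 + w2) v = 0 := by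
        intro v h1 h2
        show w1 v + w2 v = 0
        rw [t2 v h1 h2, t4 v h1 h2, add_zero]
      have hwx : (w1 + w2) p.1 ≠ 0 := fst_ne (hw.fa hR hP) rfl
      have hor := inside (w1 + w2) hw.mem (hw.zfree hR hP) (hw.ne0 hR hP) (hw.irr hR hP) t5 t6
        ⟨p.1, p.2, hwx⟩
      rcases hor with ⟨g, hg⟩ | ⟨Y', h3, ⟨y, hy⟩, h5, h6⟩
      · have hgY := inY _ g t5 t6 hg
        obtain ⟨m1, m2⟩ := bad_of_split hR hw hP hg
        exact ⟨⟨g, hgY⟩, m1, fun y h1 h2 h3 => m2 y.1 h1 h2 h3⟩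
      · obtain ⟨m1, m2⟩ := p4_side hR hS hw hP h5 hy
        refine ⟨⟨y, h3 hy⟩, m1, fun y' e1 e2 e3 => m2 y'.1 e1 e2 e3 ?_⟩
        intro hp'
        obtain ⟨m3, -⟩ := p4_side hR hS hw hP h5 hp'
        refine m3.1 ?_
        rw [hR.sym y'.1 p.1, hR.sym y'.1 s.1]
        exact e3
    haveI : Nonempty Y := ⟨⟨_, hne.choose_spec⟩⟩
    have hfree := Pool.Agent.H81.P4.P3_holds Y MY hsym hpairs hp4
    obtain ⟨r, l, hrl⟩ : ∃ (r : Y) (l : ZMod 2), ∀ y : Y, M r.1 y.1 = l := by
      rcases Pool.Agent.H81.P4.iso_or_full hsym hpairs hfree with ⟨r, hr⟩ | ⟨r, hr⟩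
      · exact ⟨r, 0, hr⟩
      · exact ⟨r, 1, hr⟩
    obtain ⟨s1, s2, s3⟩ := side r.1 r.2
    obtain ⟨q, hq⟩ := hR.w2 r.1 a
    have hra : r.1 ≠ a := fun h1 => naY (h1 ▸ r.2)
    have hrb : r.1 ≠ b := fun h1 => nbY (h1 ▸ r.2)
    have qoff : ∀ v, v ∉ Y → v ≠ a → kf (q v) (ω v) = 0 := by
      intro v h1 h2
      exact hq.t0 (by rintro rfl; exact h1 r.2) h2
    have qa : q a = u a := by
      refine l_ext _ _ _ (hR.one a) ?_ ?_
      · rw [hq.f, hu.fa hR h, hR.sym a r.1, s1]
        generalize M a a = x; revert x; decide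
      · rw [hq.t, hu.ta h, dl_self, dl_ne hra.symm, zero_add]
    have qb : q b = 0 := by
      refine l_zero _ _ (hR.one b) ?_ (qoff b nbY h.ne.symm)
      rw [hq.f, hR.sym b r.1, s2, hR.sym b a, h.ab', self2]
    have qle : ∀ v, u v ≠ 0 → q v = 0 ∨ q v = u v := by
      intro v hv
      have hvY : v ∉ Y := fun h1 => hv (hz v h1)
      by_cases h1 : v = a
      · right; rw [h1, qa]
      by_cases h2 : v = b
      · left; rw [h2, qb]
      have h3 := hu.t0 h1 h2
      have h4 := l_fst_of _ _ (hR.one v) hv h3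
      rcases z2 (q v).1 with h5 | h5
      · exact Or.inl (l_zero _ _ (hR.one v) h5 (qoff v hvY h1))
      · exact Or.inr (l_ext _ _ _ (hR.one v) (by rw [h5, h4]) (by rw [qoff v hvY h1, h3]))
    have q0 : ∀ v, u v = 0 → v ∉ Y → q v = 0 := by
      intro v h1 h2
      have h3 : v ≠ a := by rintro rfl; exact fst_ne (hu.fa hR h) h1 rfl
      refine l_zero _ _ (hR.one v) ?_ (qoff v h2 h3)
      rw [hq.f, hR.sym v r.1, s3 v h1 h2, hR.sym v a, self2]
    have qY : ∀ v, v ∈ Y → (q v).1 = l + (M a a + 1) := by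
      intro v h1
      rw [hq.f, hR.sym v r.1, hrl ⟨v, h1⟩, (side v h1).1]
    have qtY : ∀ v, v ∈ Y → v ≠ r.1 → kf (q v) (ω v) = 0 := by
      intro v h1 h2
      exact hq.t0 h2 (by rintro rfl; exact naY h1)
    have qtr : kf (q r.1) (ω r.1) = 1 := by
      rw [hq.t, dl_self, dl_ne hra, add_zero]
    have hru : u r.1 = 0 := hz r.1 r.2
    rcases z2 (l + (M a a + 1)) with hl | hl
    · -- the row of `r` gives a splitting at `r`
      have qr : q r.1 = z := l_z _ _ (hR.one _) (by rw [qY _ r.2, hl]) qtr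
      have hv : ∀ v, v ≠ r.1 → q v = 0 ∨ q v = u v := by
        intro v hv
        by_cases h1 : u v = 0
        · left
          by_cases h2 : v ∈ Y
          · exact l_zero _ _ (hR.one v) (by rw [qY v h2, hl]) (qtY v h2 hv)
          · exact q0 v h1 h2
        · exact qle v h1
      refine hns ⟨r.1, q, hq.mem, u + q, B.add_mem hu.mem hq.mem, ?_, qr, ?_, ?_⟩
      · rw [add_comm u, ← add_assoc, w_add_self, zero_add]
      · show u r.1 + q r.1 = z
        rw [hru, qr, zero_add]
      · intro v hvr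
        rcases hv v hvr with h1 | h1
        · exact Or.inl h1
        · right
          show u v + q v = 0
          rw [h1, k_add_self]
    · -- the pair `r, a` is closed and has letters on all of `Y`
      have hl' : M r.1 r.1 = M a a := by
        rw [hrl r]
        revert hl
        generalize M a a = x
        clear * -
        revert l x
        decide
      have hcp : CP M r.1 a := ⟨hl', by
        rw [s1, hl']
        generalize M a a = x
        revert x
        decide⟩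
      have qne : ∀ v ∈ Y, q v ≠ 0 := fun v h1 => fst_ne (by rw [qY v h1, hl]) rfl
      rcases inside q hq.mem (hq.zfree hR hcp) (hq.ne0 hR hcp) (hq.irr hR hcp) qle q0
        ⟨r.1, r.2, qne r.1 r.2⟩ with ⟨g, hg⟩ | ⟨Y', h3, ⟨y, hy⟩, h5, -⟩
      · have hgY := inY q g qle q0 hg
        obtain ⟨c₁, hc₁, c₂, hc₂, hs, hg1, hg2, hd⟩ := hg
        refine qne g hgY ?_
        rw [← hs]
        show c₁ g + c₂ g = 0
        rw [hg1, hg2]
        decide
      · exact qne y (h3 hy) (hS.zero q Y' h5 y hy)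

/-- **closed pairs and `0110` paths** -/
theorem pairs_and_p4 (hR : Rep B e M ω) (hS : RSides B e S) : Pairs M ∧ P4Split M := by
  constructor
  · intro a b h1 h2
    have h : CP M a b := ⟨h1, h2⟩
    obtain ⟨u, hu⟩ := hR.w2 a b
    obtain ⟨g, hg⟩ : ∃ g, Splits B u g := by
      rcases hS.ex u hu.mem (hu.zfree hR h) (hu.e0 hR (h.nea hR) (h.neb hR)) (hu.ne0 hR h)
        (hu.irr hR h) with h3 | ⟨Y, h3, h4⟩
      · exact h3
      · exact pair_splits hR hS _ a b u Y hu h h4 h3 (Nat.lt_succ_self _)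
    obtain ⟨m1, m2, m3, m4⟩ := mid_of_split hR hu h hg
    exact ⟨g, m1, m2, m3, m4⟩
  · intro a b c d hp haa hbb hcc hdd
    have hP : P40 M a b c d := ⟨hp, haa, hbb, hcc, hdd⟩
    obtain ⟨u, hu⟩ := hR.w4 a b c d
    obtain ⟨g, h1, -⟩ := p4_point hR hS hu hP
      (hS.ex u hu.mem (hu.zfree hR hP) (hu.e0 hR hP) (hu.ne0 hR hP) (hu.irr hR hP))
    exact ⟨g, h1⟩

end Pool.Agent.H28.Q
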