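import Pool.Agent.H28.Q.Pair
import Pool.Agent.H77.P3.CodeSide
import Pool.Agent.H17.P3.TreeEnd

set_option autoImplicit false

/-!
The matrix form of a rooted code with sides (MP_a46c6f_co, full Q1): the kernel is zero, the inverse of
the reduced Laplacian exists, and the graph of the code is a tree.
-/

namespace Pool.Agent.H28.Q

open Pool.Agent.H98.Code Pool.Agent.H77.Q Pool.Agent.H17.P3 Pool.Agent.H17.TR Pool.Agent.H77.P3

variable {V : Type} [Fintype V] [DecidableEq V]
variable {B : Submodule (ZMod 2) (V → K)} {e : V} {M : V → V → ZMod 2} {ω : V → K}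
variable {S : (V → K) → Finset V → Prop} {H : V → V → ZMod 2}

/-- an irreducible part of a word through a given place -/
theorem exists_irr (v₀ : V) : ∀ (n : ℕ) (d : V → K), d ∈ B →
    (Finset.univ.filter fun v => d v ≠ 0).card < n → d v₀ ≠ 0 →
    ∃ d' ∈ B, (∀ v, d' v = 0 ∨ d' v = d v) ∧ d' v₀ ≠ 0 ∧ Irr B d' := by
  classical
  intro n
  induction n with
  | zero => intro d _ h _; exact absurd h (Nat.not_lt_zero _)
  | succ n ih =>
    intro d hd hc hd0
    by_cases hI : Irr B d
    · exact ⟨d, hd, fun v => Or.inr rfl, hd0, hI⟩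
    unfold Irr at hI
    push Not at hI
    obtain ⟨d₁, h1, h2, h3, h4⟩ := hI
    -- both `d₁` and `d + d₁` are smaller
    have step : ∀ k ∈ B, (∀ v, k v = 0 ∨ k v = d v) → k ≠ d → k v₀ ≠ 0 →
        ∃ d' ∈ B, (∀ v, d' v = 0 ∨ d' v = d v) ∧ d' v₀ ≠ 0 ∧ Irr B d' := by
      intro k hk k1 k2 k3
      have hlt : (Finset.univ.filter fun v => k v ≠ 0).card <
          (Finset.univ.filter fun v => d v ≠ 0).card := by
        apply Finset.card_lt_card
        refine ⟨?_, ?_⟩
        · intro v hv
          simp only [Finset.mem_filter, Finset.mem_univ, true_and] at hv ⊢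
          rcases k1 v with h5 | h5
          · exact absurd h5 hv
          · rw [← h5]; exact hv
        · intro hsub
          apply k2
          funext v
          rcases k1 v with h5 | h5
          · by_contra h6
            have : v ∈ Finset.univ.filter fun v => d v ≠ 0 := by
              simp only [Finset.mem_filter, Finset.mem_univ, true_and]
              intro h7
              exact h6 (by rw [h5, h7])
            have := hsub this
            simp only [Finset.mem_filter, Finset.mem_univ, true_and] at this
            exact this h5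
          · exact h5
      obtain ⟨d', m1, m2, m3, m4⟩ := ih k hk (by omega) k3
      refine ⟨d', m1, fun v => ?_, m3, m4⟩
      rcases m2 v with h5 | h5
      · exact Or.inl h5
      · rw [h5]; exact k1 v
    by_cases h5 : d₁ v₀ = 0
    · refine step (d + d₁) (B.add_mem hd h1) (fun v => ?_) ?_ ?_
      · show d v + d₁ v = 0 ∨ d v + d₁ v = d v
        rcases h2 v with h6 | h6
        · right; rw [h6, add_zero]
        · left; rw [h6, k_add_self]
      · intro h6
        apply h3
        funext v
        have h7 : d v + d₁ v = d v := congrFun h6 v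
        have h8 : d v + d₁ v = d v + 0 := by rw [h7, add_zero]
        exact add_left_cancel h8
      · show d v₀ + d₁ v₀ ≠ 0
        rw [h5, add_zero]
        exact hd0
    · exact step d₁ h1 h2 h4 h5

theorem no_split_le (hiso : ∀ u ∈ B, ∀ v ∈ B, form u v = 0) (hω : ω ∈ B)
    (h1 : ∀ v, (ω v).1 = 1) {d : V → K} (hle : ∀ v, d v = 0 ∨ d v = ω v) {g : V} :
    ¬ Splits B d g := by
  rintro ⟨c₁, hc₁, c₂, hc₂, hs, hg1, hg2, hd⟩
  have hsv : ∀ v, c₁ v + c₂ v = d v := fun v => congrFun hs v
  have hf := hiso c₁ hc₁ ω hω
  unfold form at hf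
  rw [Finset.sum_eq_single g] at hf
  · rw [hg1, kf_z_left, h1] at hf
    exact absurd hf (by decide)
  · intro v _ hv
    rcases hd v hv with h3 | h3
    · rw [h3, kf_zero_left]
    · have h4 : c₁ v = d v := by rw [← hsv v, h3, add_zero]
      rcases hle v with h5 | h5
      · rw [h4, h5, kf_zero_left]
      · rw [h4, h5, kf_self]
  · intro hh
    exact absurd (Finset.mem_univ g) hh

/-- the kernel is zero -/
theorem ker0 (hiso : ∀ u ∈ B, ∀ v ∈ B, form u v = 0) (hS : RSides B e S) (hω : ω ∈ B)
    (h1 : ∀ v, (ω v).1 = 1) : ∀ d ∈ B, (∀ v, d v = 0 ∨ d v = ω v) → d e = 0 → d = 0 := by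
  classical
  have hzf : ∀ d : V → K, (∀ v, d v = 0 ∨ d v = ω v) → ZFree d := by
    intro d hd v hv
    rcases hd v with h3 | h3
    · rw [hv] at h3; exact absurd h3 (by decide)
    · have := h1 v
      rw [← h3, hv] at this
      exact absurd this (by decide)
  have main : ∀ (n : ℕ) (d : V → K) (Y : Finset V), d ∈ B → (∀ v, d v = 0 ∨ d v = ω v) →
      d e = 0 → Irr B d → S d Y → Y.Nonempty → Y.card < n → False := by
    intro n
    induction n with
    | zero => intro d Y _ _ _ _ _ _ h; exact absurd h (Nat.not_lt_zero _)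
    | succ n ih =>
      intro d Y hd hle hde hI hY ⟨y, hy⟩ hc
      have hz := hS.zero d Y hY
      have hr := hS.root d Y hY
      obtain ⟨k, hk, k1, k2, k3⟩ := hS.part d Y hY ω hω (fun v hv => by
        rcases hle v with h3 | h3
        · exact absurd h3 hv
        · exact Or.inr h3.symm)
      have kle : ∀ v, k v = 0 ∨ k v = ω v := by
        intro v
        by_cases h3 : d v = 0
        · by_cases h4 : v ∈ Y
          · exact Or.inr (k1 v h4)
          · exact Or.inl (k2 v h3 h4)
        · rcases k3 v h3 with h4 | h4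
          · exact Or.inl h4
          · rcases hle v with h5 | h5
            · exact absurd h5 h3
            · right; rw [h4, h5]
      have hky : k y ≠ 0 := by
        rw [k1 y hy]
        exact fst_ne (h1 y) rfl
      obtain ⟨k', m1, m2, m3, m4⟩ := exists_irr (B := B) y _ k hk (Nat.lt_succ_self _) hky
      have k'le : ∀ v, k' v = 0 ∨ k' v = ω v := by
        intro v
        rcases m2 v with h3 | h3
        · exact Or.inl h3
        · rw [h3]; exact kle v
      have hk0 : k' ≠ 0 := by
        rintro rfl
        exact m3 rfl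
      have a1 : ∀ v, d v ≠ 0 → k' v = 0 ∨ k' v = d v := by
        intro v hv
        rcases m2 v with h3 | h3
        · exact Or.inl h3
        · rw [h3]; exact k3 v hv
      have a2 : ∀ v, d v = 0 → v ∉ Y → k' v = 0 := by
        intro v h3 h4
        rcases m2 v with h5 | h5
        · exact h5
        · rw [h5]; exact k2 v h3 h4
      rcases hS.mono d Y hY hI k' m1 (hzf k' k'le) hk0 m4 a1 a2 with ⟨g, hg⟩ | ⟨Y', h3, h4, h5⟩
      · exact no_split_le hiso hω h1 k'le hg
      · have hyY' : y ∉ Y' := fun h6 => m3 (hS.zero k' Y' h5 y h6)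
        have hlt : Y'.card < Y.card :=
          Finset.card_lt_card ⟨h3, fun h6 => hyY' (h6 hy)⟩
        exact ih k' Y' m1 k'le (a2 e hde hr) m4 h5 h4 (by omega)
  intro d hd hle hde
  by_contra hne
  have : ∃ v, d v ≠ 0 := by
    by_contra h3
    push Not at h3
    exact hne (funext h3)
  obtain ⟨v₀, hv₀⟩ := this
  obtain ⟨k, m1, m2, m3, m4⟩ := exists_irr (B := B) v₀ _ d hd (Nat.lt_succ_self _) hv₀
  have kle : ∀ v, k v = 0 ∨ k v = ω v := by
    intro v
    rcases m2 v with h3 | h3
    · exact Or.inl h3
    · rw [h3]; exact hle v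
  have hke : k e = 0 := by
    rcases m2 e with h3 | h3
    · exact h3
    · rw [h3, hde]
  have hk0 : k ≠ 0 := by
    rintro rfl
    exact m3 rfl
  rcases hS.ex k m1 (hzf k kle) hke hk0 m4 with ⟨g, hg⟩ | ⟨Y, h3, h4⟩
  · exact no_split_le hiso hω h1 kle hg
  · exact main _ k Y m1 kle hke m4 h4 h3 (Nat.lt_succ_self _)

/-- the word with a letter at every place -/
def om (H : V → V → ZMod 2) (v : V) : K := (1, deg H v)

theorem lap_one (H : V → V → ZMod 2) (v : V) : lap H (fun _ => 1) v = 0 := by
  unfold lap
  apply Finset.sum_eq_zero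
  intro w _
  rw [show (1 : ZMod 2) + 1 = 0 from by decide, mul_zero]

theorem om_mem (hH : IsMat B H) : om H ∈ B := by
  have h1 := word_mem hH (fun _ => 1)
  have h2 : (fun v => ((1, deg H v * 1 + lap H (fun _ => 1) v) : K)) = om H := by
    funext v
    rw [lap_one, mul_one, add_zero]
    rfl
  rw [← h2]
  exact h1

theorem kf_om (hH : IsMat B H) {k : V → K} (hk : k ∈ B) (v : V) :
    kf (k v) (om H v) = lap H (fun w => (k w).1) v := by
  have h1 := snd_eq hH hk v
  show (k v).1 * deg H v + (k v).2 * 1 = _
  rw [h1]
  generalize deg H v = x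
  generalize (k v).1 = y
  generalize lap H (fun w => (k w).1) v = t
  revert x y t
  decide

/-- the reduced Laplacian is injective -/
theorem inj' (hL : IsCode B) (hS : RSides B e S) (hH : IsMat B H)
    (p : V → ZMod 2) (he : p e = 0) (h0 : ∀ v, v ≠ e → lap H p v = 0) : p = 0 := by
  have hle : lap H p e = 0 := by
    have h1 := lap_sum hH.sym p
    rw [← Finset.add_sum_erase _ _ (Finset.mem_univ e)] at h1
    rw [Finset.sum_eq_zero (s := Finset.univ.erase e)
      (fun v hv => h0 v (Finset.ne_of_mem_erase hv)), add_zero] at h1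
    exact h1
  have hl : ∀ v, lap H p v = 0 := by
    intro v
    by_cases hv : v = e
    · rw [hv, hle]
    · exact h0 v hv
  have hm := word_mem hH p
  have h1 := ker0 hL.iso hS (om_mem hH) (fun v => rfl) _ hm (by
    intro v
    rcases z2 (p v) with h3 | h3
    · left
      show ((p v, deg H v * p v + lap H p v) : K) = 0
      rw [h3, hl v, mul_zero, add_zero]
      rfl
    · right
      show ((p v, deg H v * p v + lap H p v) : K) = (1, deg H v)
      rw [h3, hl v, mul_one, add_zero]) (by
    show ((p e, deg H e * p e + lap H p e) : K) = 0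
    rw [he, hle, mul_zero, add_zero]
    rfl)
  funext v
  exact congrArg Prod.fst (congrFun h1 v)

/-- the inverse of the reduced Laplacian -/
theorem exists_inv' (hL : IsCode B) (hS : RSides B e S) (hH : IsMat B H) :
    ∃ M : V → V → ZMod 2, (∀ x y, M x y = M y x) ∧ (∀ x, M e x = 0) ∧
      (∀ u, u ≠ e → ∀ v, lap H (fun w => M w v) u = if u = v then 1 else 0) := by
  have hsurj : Function.Surjective
      (fun (p : V → ZMod 2) (v : V) => if v = e then p e else lap H p v) := by
    rw [← Finite.injective_iff_surjective]
    intro p q hpq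
    have hpe : p e = q e := by
      have := congrFun hpq e
      simpa using this
    have h1 : p + q = 0 := by
      apply inj' hL hS hH
      · rw [Pi.add_apply, hpe, CharTwo.add_self_eq_zero]
      · intro v hv
        have := congrFun hpq v
        simp only [if_neg hv] at this
        rw [lap_add, this, CharTwo.add_self_eq_zero]
    funext v
    have h2 := congrFun h1 v
    rw [Pi.add_apply, Pi.zero_apply] at h2
    revert h2
    generalize p v = a
    generalize q v = b
    revert a b
    decide
  choose m hm using fun y : V => hsurj (fun v => if v = e then 0 else if v = y then 1 else 0)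
  have hme : ∀ y, m y e = 0 := by
    intro y
    have := congrFun (hm y) e
    simpa using this
  have hml : ∀ y v, v ≠ e → lap H (m y) v = if v = y then 1 else 0 := by
    intro y v hv
    have := congrFun (hm y) v
    simpa only [if_neg hv] using this
  have hme' : ∀ v, m e v = 0 := by
    intro v
    have : m e = 0 := by
      apply inj' hL hS hH _ (hme e)
      intro v hv
      rw [hml e v hv, if_neg hv]
    rw [this]
    rfl
  have hsy : ∀ x y, m x y = m y x := by
    intro x y
    by_cases hx : x = e
    · rw [hx, hme', hme]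
    by_cases hy : y = e
    · rw [hy, hme', hme]
    have h1 := lap_adj hH.sym (m y) (m x)
    have h2 : ∑ v, m x v * lap H (m y) v = m x y := by
      rw [Finset.sum_eq_single y]
      · rw [hml y y hy, if_pos rfl, mul_one]
      · intro v _ hv
        by_cases hve : v = e
        · rw [hve, hme, zero_mul]
        · rw [hml y v hve, if_neg hv, mul_zero]
      · intro hh
        exact absurd (Finset.mem_univ y) hh
    have h3 : ∑ v, lap H (m x) v * m y v = m y x := by
      rw [Finset.sum_eq_single x]
      · rw [hml x x hx, if_pos rfl, one_mul]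
      · intro v _ hv
        by_cases hve : v = e
        · rw [hve, hme, mul_zero]
        · rw [hml x v hve, if_neg hv, zero_mul]
      · intro hh
        exact absurd (Finset.mem_univ x) hh
    rw [← h2, ← h3, h1]
  refine ⟨fun x y => m y x, fun x y => hsy y x, fun x => hme x, ?_⟩
  intro u hu v
  exact hml v u hu

/-- the matrix form -/
theorem rep_of (hL : IsCode B) (hH : IsMat B H) (hM : ∀ x y, M x y = M y x)
    (he : ∀ x, M e x = 0)
    (hi : ∀ u, u ≠ e → ∀ v, lap H (fun w => M w v) u = if u = v then 1 else 0) :
    Rep B e M (om H) := by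
  refine ⟨hL.iso, om_mem hH, fun v => rfl, hM, he, ?_, ?_⟩
  · intro k hk hke w
    rw [Pool.Agent.H77.P3.recover hH hM he hi (fun v => (k v).1) hke w]
    exact Finset.sum_congr rfl fun v _ => by rw [kf_om hH hk v]
  · intro T hT
    set q : V → ZMod 2 := fun w => ∑ x, T x * M w x with hq
    have hqe : q e = 0 := Finset.sum_eq_zero fun x _ => by rw [he x, mul_zero]
    have hlq1 : ∀ v, v ≠ e → lap H q v = T v := by
      intro v hv
      have h1 : lap H q v = ∑ x, T x * lap H (fun w => M w x) v := by
        unfold lap
        simp only [hq, Finset.mul_sum, ← Finset.sum_add_distrib]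
        rw [Finset.sum_comm]
        refine Finset.sum_congr rfl fun x _ => ?_
        refine Finset.sum_congr rfl fun w _ => ?_
        ring
      rw [h1, Finset.sum_congr rfl fun x _ => by rw [hi v hv x]]
      simp
    have hle : lap H q e = T e := by
      have h1 := lap_sum hH.sym q
      rw [← Finset.add_sum_erase _ _ (Finset.mem_univ e)] at h1 hT
      rw [Finset.sum_congr rfl fun x hx => hlq1 x (Finset.ne_of_mem_erase hx)] at h1
      have h2 := h1.trans hT.symm
      exact add_right_cancel h2
    refine ⟨_, word_mem hH q, hqe, fun v => ?_⟩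
    rw [kf_om hH (word_mem hH q) v]
    by_cases hv : v = e
    · rw [hv]; exact hle
    · exact hlq1 v hv

/-- **the code side for a rooted code with sides** -/
theorem codeSide' (hL : IsCode B) (hS : RSides B e S) (hH : IsMat B H) :
    ∃ M : V → V → ZMod 2, (∀ x y, M x y = M y x) ∧ (∀ x, M e x = 0) ∧
      (∀ u, u ≠ e → ∀ v, (∑ w, H u w * (M u v + M w v)) = if u = v then 1 else 0) ∧
      Pairs M ∧ P4Split M := by
  obtain ⟨M, hM, he, hi⟩ := exists_inv' hL hS hH
  have hR := rep_of hL hH hM he hi
  obtain ⟨h1, h2⟩ := pairs_and_p4 hR hS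
  exact ⟨M, hM, he, hi, h1, h2⟩

/-- **the heart**: the graph of a rooted code with sides is a tree -/
theorem heart : ∀ (X : Type) [Fintype X] [DecidableEq X] (B : Submodule (ZMod 2) (X → K))
    (r : X) (S : (X → K) → Finset X → Prop), IsCode B → NoZ B → RSides B r S →
    (graph B).IsTree := by
  intro X _ _ B r S hB hz hS
  obtain ⟨H, hs, hm⟩ := exists_matrix hB hz
  have hH : IsMat B H := ⟨hs, hm⟩
  have hH' : Pool.Agent.H32.AA.IsMat B H := ⟨hs, hm⟩
  have heq : graph B = GrH H := by
    ext v w
    rw [Pool.Agent.H32.AA.adj_iff hH', hH.adj]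
  rw [heq]
  obtain ⟨M, hM, he, hinv, hp, h4⟩ := codeSide' hB hS hH
  exact Pool.Agent.H17.P3.tree_end X r H M hs hM he hinv hp
    (Pool.Agent.H81.P4.P3_holds X M hM hp h4)

end Pool.Agent.H28.Q
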