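import Pool.Agent.H28.Q.Mid

set_option autoImplicit false

/-!
Own places of the side without the root (MP_a46c6f_co, full Q1).
-/

namespace Pool.Agent.H28.Q

open Pool.Agent.H98.Code Pool.Agent.H77.Q Pool.Agent.H17.P3

variable {V : Type} [Fintype V] [DecidableEq V]
variable {B : Submodule (ZMod 2) (V → K)} {e : V} {M : V → V → ZMod 2} {ω : V → K}
variable {S : (V → K) → Finset V → Prop}
variable {a b c d g : V} {u : V → K} {Y : Finset V}

theorem fst_ne {x y : K} (hx : x.1 = 1) (hy : y = 0) : x ≠ y := by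
  rintro rfl
  rw [hy] at hx
  exact absurd hx (zero_ne_one (α := ZMod 2))

theorem pair_side (hR : Rep B e M ω) (hS : RSides B e S) (hu : W2 B M ω a b u) (h : CP M a b)
    (hY : S u Y) {y : V} (hy : y ∈ Y) :
    M y a = M a a + 1 ∧ M y b = M a a + 1 ∧ ∀ p, u p = 0 → p ∉ Y → M y p = M a p := by
  have hz := hS.zero u Y hY
  have hr := hS.root u Y hY
  have hue : u e = 0 := hu.e0 hR (h.nea hR) (h.neb hR)
  have hya : y ≠ a := by
    rintro rfl; exact fst_ne (hu.fa hR h) (hz _ hy) rfl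
  have hyb : y ≠ b := by
    rintro rfl; exact fst_ne (hu.fb hR h) (hz _ hy) rfl
  have hye : y ≠ e := by
    rintro rfl; exact hr hy
  have huy : M y a + M y b = 0 := by
    rw [← hu.f, hz y hy]; rfl
  obtain ⟨q, hq⟩ := hR.w2 y e
  obtain ⟨k, hk, hkf, hkt⟩ : ∃ k ∈ B, (∀ w, (k w).1 = M w y + M y a) ∧
      ∀ v, kf (k v) (ω v) = dl y v + dl e v := by
    rcases z2 (M y a) with h1 | h1
    · refine ⟨q, hq.mem, fun w => ?_, hq.t⟩
      rw [hq.f, h1, hR.zero']
    · refine ⟨q + ω, B.add_mem hq.mem hR.mem, fun w => ?_, fun v => ?_⟩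
      · show (q w).1 + (ω w).1 = _
        rw [hq.f, h1, hR.zero', hR.one, add_zero]
      · show kf (q v + ω v) (ω v) = _
        rw [kf_add_left, hq.t, kf_self, add_zero]
  have hle : ∀ v, u v ≠ 0 → k v = 0 ∨ k v = u v := by
    intro v hv
    have hvy : v ≠ y := by rintro rfl; exact hv (hz _ hy)
    have hve : v ≠ e := by rintro rfl; exact hv hue
    have ht0 : kf (k v) (ω v) = 0 := by rw [hkt, dl_ne hvy, dl_ne hve, add_zero]
    by_cases h1 : v = a
    · left
      refine l_zero _ _ (hR.one v) ?_ ht0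
      rw [hkf, h1, hR.sym a y, self2]
    by_cases h2 : v = b
    · left
      refine l_zero _ _ (hR.one v) ?_ ht0
      rw [hkf, h2, hR.sym b y, add_comm]
      exact huy
    have h3 := hu.t0 h1 h2
    have h4 := l_fst_of _ _ (hR.one v) hv h3
    rcases z2 (k v).1 with h5 | h5
    · exact Or.inl (l_zero _ _ (hR.one v) h5 ht0)
    · exact Or.inr (l_ext _ _ _ (hR.one v) (by rw [h5, h4]) (by rw [ht0, h3]))
  obtain ⟨k', hk', k1, k2, k3⟩ := hS.part u Y hY k hk hle
  have hke : (k' e).1 = 0 := by rw [k2 e hue hr]; rfl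
  have ht : ∀ v, kf (k' v) (ω v) = kf (k' a) (ω a) * dl a v + kf (k' b) (ω b) * dl b v +
      dl y v := by
    intro v
    by_cases h1 : v = a
    · rw [h1, dl_self, dl_ne h.ne, dl_ne hya.symm]; ring
    by_cases h2 : v = b
    · rw [h2, dl_self, dl_ne h.ne.symm, dl_ne hyb.symm]; ring
    rw [dl_ne h1, dl_ne h2]
    by_cases h3 : v ∈ Y
    · rw [k1 v h3, hkt, dl_ne (t := e) (by rintro rfl; exact hr h3)]; ring
    have h4 : v ≠ y := by rintro rfl; exact h3 hy
    rw [dl_ne h4]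
    by_cases h5 : u v = 0
    · rw [k2 v h5 h3, kf_zero_left]; ring
    have : kf (k' v) (ω v) = 0 := by
      rcases k3 v h5 with h6 | h6
      · rw [h6, kf_zero_left]
      · rw [h6, hu.t0 h1 h2]
    rw [this]; ring
  have hp := hR.par3 hk' ht
  have hf := hR.fst3 hk' hke ht
  have ea := le_val (k3 a (fst_ne (hu.fa hR h) rfl)) (hu.fa hR h) (hu.ta h)
  have eb := le_val (k3 b (fst_ne (hu.fb hR h) rfl)) (hu.fb hR h) (hu.tb h)
  rw [hf, h.ab', hR.sym a y] at ea
  rw [hf, hR.sym b a, h.ab', ← h.aa, hR.sym b y] at eb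
  refine ⟨?_, ?_, ?_⟩
  · revert hp ea eb
    generalize kf (k' a) (ω a) = α; generalize kf (k' b) (ω b) = β
    generalize M a a = x1; generalize M y a = x2; generalize M y b = x3
    clear * -
    revert α β x1 x2 x3; decide
  · revert hp ea eb
    generalize kf (k' a) (ω a) = α; generalize kf (k' b) (ω b) = β
    generalize M a a = x1; generalize M y a = x2; generalize M y b = x3
    clear * -
    revert α β x1 x2 x3; decide
  · intro p hp0 hpY
    have e1 : (k' p).1 = 0 := by rw [k2 p hp0 hpY]; rfl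
    have e2 : (u p).1 = 0 := by rw [hp0]; rfl
    rw [hf, hR.sym p y, hR.sym p a] at e1
    rw [hu.f, hR.sym p a] at e2
    revert hp e1 e2
    generalize kf (k' a) (ω a) = α; generalize kf (k' b) (ω b) = β
    generalize M a p = x1; generalize M y p = x2; generalize M p b = x3
    clear * -
    revert α β x1 x2 x3; decide

theorem p4_side (hR : Rep B e M ω) (hS : RSides B e S) (hu : W4 B M ω a b c d u)
    (h : P40 M a b c d) (hY : S u Y) {y : V} (hy : y ∈ Y) :
    Bad M a b c d y ∧ ∀ p, M a p = M b p → M a p = M c p → M a p = M d p → p ∉ Y →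
      M y p = M a p := by
  have hz := hS.zero u Y hY
  have hr := hS.root u Y hY
  have hue : u e = 0 := hu.e0 hR h
  have hya : y ≠ a := by
    rintro rfl; exact fst_ne (hu.fa hR h) (hz _ hy) rfl
  have hyb : y ≠ b := by
    rintro rfl; exact fst_ne (hu.fb hR h) (hz _ hy) rfl
  have hyc : y ≠ c := by
    rintro rfl; exact fst_ne (hu.fc hR h) (hz _ hy) rfl
  have hyd : y ≠ d := by
    rintro rfl; exact fst_ne (hu.fd hR h) (hz _ hy) rfl
  have hye : y ≠ e := by
    rintro rfl; exact hr hy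
  have huy : M y a + M y b + M y c + M y d = 0 := by
    rw [← hu.f, hz y hy]; rfl
  -- the word `r_y + M_ya r_b + M_yb r_c + (M_yc + M_ya) r_d`
  have hw : ∀ (x : V) (δ : ZMod 2), ∃ k ∈ B, (∀ w, (k w).1 = δ * M w x) ∧
      ∀ v, kf (k v) (ω v) = δ * (dl x v + dl e v) := by
    intro x δ
    rcases z2 δ with h1 | h1
    · refine ⟨0, B.zero_mem, fun w => ?_, fun v => ?_⟩
      · rw [h1, zero_mul]; rfl
      · rw [h1, zero_mul]; exact kf_zero_left _
    · obtain ⟨q, hq⟩ := hR.w2 x e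
      refine ⟨q, hq.mem, fun w => ?_, fun v => ?_⟩
      · rw [h1, one_mul, hq.f, hR.zero', add_zero]
      · rw [h1, one_mul, hq.t]
  obtain ⟨q1, m1, f1, t1⟩ := hw y 1
  obtain ⟨q2, m2, f2, t2⟩ := hw b (M y a)
  obtain ⟨q3, m3, f3, t3⟩ := hw c (M y b)
  obtain ⟨q4, m4, f4, t4⟩ := hw d (M y c + M y a)
  obtain ⟨k, hk, hkf, hkt⟩ : ∃ k ∈ B, (∀ w, (k w).1 = M w y + M y a * M w b + M y b * M w c +
      (M y c + M y a) * M w d) ∧
      ∀ v, kf (k v) (ω v) = (dl y v + dl e v) + M y a * (dl b v + dl e v) +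
        M y b * (dl c v + dl e v) + (M y c + M y a) * (dl d v + dl e v) := by
    refine ⟨q1 + q2 + q3 + q4, B.add_mem (B.add_mem (B.add_mem m1 m2) m3) m4,
      fun w => ?_, fun v => ?_⟩
    · show (q1 w).1 + (q2 w).1 + (q3 w).1 + (q4 w).1 = _
      rw [f1, f2, f3, f4, one_mul]
    · show kf (q1 v + q2 v + q3 v + q4 v) (ω v) = _
      rw [kf_add_left, kf_add_left, kf_add_left, t1, t2, t3, t4, one_mul]
  have hle : ∀ v, u v ≠ 0 → k v = 0 ∨ k v = u v := by
    intro v hv
    have hvy : v ≠ y := by rintro rfl; exact hv (hz _ hy)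
    have hve : v ≠ e := by rintro rfl; exact hv hue
    have gen : (u v).1 = 1 → (k v).1 = kf (k v) (ω v) → kf (u v) (ω v) = 1 →
        k v = 0 ∨ k v = u v := by
      intro h1 h2 h3
      rcases z2 (k v).1 with h5 | h5
      · exact Or.inl (l_zero _ _ (hR.one v) h5 (by rw [← h2, h5]))
      · exact Or.inr (l_ext _ _ _ (hR.one v) (by rw [h5, h1]) (by rw [← h2, h5, h3]))
    by_cases h1 : v = a
    · refine gen (by rw [h1]; exact hu.fa hR h) ?_ (by rw [h1]; exact hu.ta hR h)
      rw [hkf, hkt, dl_ne hvy, dl_ne hve, h1, dl_ne h.nab, dl_ne h.nac, dl_ne (h.nad hR),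
        h.p4.ab, h.p4.ac, h.p4.ad, hR.sym a y]
      generalize M y a = x1; generalize M y b = x2; generalize M y c = x3
      clear * -
      revert x1 x2 x3; decide
    by_cases h2 : v = b
    · refine gen (by rw [h2]; exact hu.fb hR h) ?_ (by rw [h2]; exact hu.tb hR h)
      rw [hkf, hkt, dl_ne hvy, dl_ne hve, h2, dl_self, dl_ne h.nbc, dl_ne h.nbd,
        h.bb, h.p4.bc, h.p4.bd, hR.sym b y]
      generalize M y a = x1; generalize M y b = x2; generalize M y c = x3
      clear * -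
      revert x1 x2 x3; decide
    by_cases h3 : v = c
    · refine gen (by rw [h3]; exact hu.fc hR h) ?_ (by rw [h3]; exact hu.tc hR h)
      rw [hkf, hkt, dl_ne hvy, dl_ne hve, h3, dl_self, dl_ne h.nbc.symm, dl_ne h.ncd,
        hR.sym c b, h.p4.bc, h.cc, h.p4.cd, hR.sym c y]
      generalize M y a = x1; generalize M y b = x2; generalize M y c = x3
      clear * -
      revert x1 x2 x3; decide
    by_cases h4 : v = d
    · refine gen (by rw [h4]; exact hu.fd hR h) ?_ (by rw [h4]; exact hu.td hR h)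
      rw [hkf, hkt, dl_ne hvy, dl_ne hve, h4, dl_self, dl_ne h.nbd.symm, dl_ne h.ncd.symm,
        hR.sym d b, hR.sym d c, h.p4.bd, h.p4.cd, h.dd, hR.sym d y]
      revert huy
      generalize M y a = x1; generalize M y b = x2; generalize M y c = x3
      generalize M y d = x4
      clear * -
      revert x1 x2 x3 x4; decide
    have h5 := hu.t0 h1 h2 h3 h4
    have h6 := l_fst_of _ _ (hR.one v) hv h5
    have ht0 : kf (k v) (ω v) = 0 := by
      rw [hkt, dl_ne hvy, dl_ne hve, dl_ne h2, dl_ne h3, dl_ne h4]; ring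
    rcases z2 (k v).1 with h7 | h7
    · exact Or.inl (l_zero _ _ (hR.one v) h7 ht0)
    · exact Or.inr (l_ext _ _ _ (hR.one v) (by rw [h7, h6]) (by rw [ht0, h5]))
  obtain ⟨k', hk', k1, k2, k3⟩ := hS.part u Y hY k hk hle
  have hke : (k' e).1 = 0 := by rw [k2 e hue hr]; rfl
  have hnY : ∀ x, (u x).1 = 1 → x ∉ Y := fun x hx hxY => fst_ne hx (hz x hxY) rfl
  have ht : ∀ v, kf (k' v) (ω v) = kf (k' a) (ω a) * dl a v + kf (k' b) (ω b) * dl b v +
      kf (k' c) (ω c) * dl c v + kf (k' d) (ω d) * dl d v + dl y v := by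
    intro v
    by_cases h1 : v = a
    · rw [h1, dl_self, dl_ne h.nab, dl_ne h.nac, dl_ne (h.nad hR), dl_ne hya.symm]; ring
    by_cases h2 : v = b
    · rw [h2, dl_self, dl_ne h.nab.symm, dl_ne h.nbc, dl_ne h.nbd, dl_ne hyb.symm]; ring
    by_cases h3 : v = c
    · rw [h3, dl_self, dl_ne h.nac.symm, dl_ne h.nbc.symm, dl_ne h.ncd, dl_ne hyc.symm]; ring
    by_cases h4 : v = d
    · rw [h4, dl_self, dl_ne (h.nad hR).symm, dl_ne h.nbd.symm, dl_ne h.ncd.symm,
        dl_ne hyd.symm]; ring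
    rw [dl_ne h1, dl_ne h2, dl_ne h3, dl_ne h4]
    by_cases h5 : v ∈ Y
    · rw [k1 v h5, hkt, dl_ne (t := e) (by rintro rfl; exact hr h5), dl_ne h2, dl_ne h3,
        dl_ne h4]; ring
    have h6 : v ≠ y := by rintro rfl; exact h5 hy
    rw [dl_ne h6]
    by_cases h7 : u v = 0
    · rw [k2 v h7 h5, kf_zero_left]; ring
    have : kf (k' v) (ω v) = 0 := by
      rcases k3 v h7 with h8 | h8
      · rw [h8, kf_zero_left]
      · rw [h8, hu.t0 h1 h2 h3 h4]
    rw [this]; ring
  have v1 := fun x (hx : (u x).1 = 1) (hx' : kf (u x) (ω x) = 1) =>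
    le_val (k3 x (fst_ne hx rfl)) hx hx'
  obtain ⟨hb, hag⟩ := bad_of_word hR h hk' hke ht (v1 a (hu.fa hR h) (hu.ta hR h))
    (v1 b (hu.fb hR h) (hu.tb hR h)) (v1 c (hu.fc hR h) (hu.tc hR h))
    (v1 d (hu.fd hR h) (hu.td hR h))
  refine ⟨hb, fun p e1 e2 e3 hpY => hag p e1 e2 e3 ?_⟩
  by_cases h5 : u p = 0
  · rw [k2 p h5 hpY]; rfl
  · have e4 : (u p).1 = 0 := by
      rw [hu.f, hR.sym p a, hR.sym p b, hR.sym p c, hR.sym p d, ← e1, ← e2, ← e3]
      generalize M a p = x; revert x; decide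
    rcases k3 p h5 with h6 | h6
    · rw [h6]; rfl
    · rw [h6, e4]

/-- the form excludes a splitting point in the support -/
theorem g_zero (hR : Rep B e M ω) {c : V → K} (hc : c ∈ B) (hu : u ∈ B) (hg : c g = z)
    (hd : ∀ v, v ≠ g → c v = 0 ∨ u v = 0 ∨ c v = u v) : (u g).1 = 0 := by
  have h1 := hR.iso c hc u hu
  unfold form at h1
  rw [Finset.sum_eq_single g] at h1
  · rw [hg, kf_z_left] at h1
    exact h1
  · intro v _ hv
    rcases hd v hv with h3 | h3 | h3
    · rw [h3, kf_zero_left]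
    · rw [h3, kf_zero_right]
    · rw [h3, kf_self]
  · intro hh
    exact absurd (Finset.mem_univ g) hh

theorem k_cases2 {x y : K} (h : x = 0 ∨ x = y) : y + x = y ∨ y + x = 0 := by
  rcases h with h | h
  · left; rw [h, add_zero]
  · right; rw [h, k_add_self]

/-- the part outside the side -/
theorem kpart (hS : RSides B e S) (hu : u ∈ B) (hY : S u Y) {c : V → K} (hc : c ∈ B)
    (hg : c g = z) (hgu : u g = 0) (hgY : g ∉ Y) (hle : ∀ v, u v ≠ 0 → c v = 0 ∨ c v = u v)
    (h0 : ∀ v, u v = 0 → v ∉ Y → v ≠ g → c v = 0) : Splits B u g := by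
  obtain ⟨k, hk, k1, k2, k3⟩ := hS.part u Y hY c hc hle
  have hv : ∀ v, v ≠ g → (c + k) v = 0 ∨ (c + k) v = u v := by
    intro v hvg
    show c v + k v = 0 ∨ c v + k v = u v
    by_cases h1 : u v = 0
    · left
      by_cases h2 : v ∈ Y
      · rw [k1 v h2, k_add_self]
      · rw [h0 v h1 h2 hvg, k2 v h1 h2, add_zero]
    · rcases hle v h1 with h2 | h2
      · rw [h2, zero_add]; exact k3 v h1
      · rw [h2]
        rcases k3 v h1 with h3 | h3
        · right; rw [h3, add_zero]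
        · left; rw [h3, k_add_self]
  have hgz : (c + k) g = z := by
    show c g + k g = z
    rw [hg, k2 g hgu hgY, add_zero]
  refine ⟨c + k, B.add_mem hc hk, u + (c + k), B.add_mem hu (B.add_mem hc hk), ?_, hgz, ?_, ?_⟩
  · rw [add_comm u, ← add_assoc, w_add_self, zero_add]
  · show u g + (c + k) g = z
    rw [hgz, hgu, zero_add]
  · intro v hvg
    rcases hv v hvg with h1 | h1
    · exact Or.inl h1
    · right
      show u v + (c + k) v = 0
      rw [h1, k_add_self]

end Pool.Agent.H28.Q
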